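import Pool.Agent.P.MP_8219a1_an.Defs

set_option autoImplicit false

open scoped ComplexOrder
open Filter Topology

namespace Pool.Agent.P.MP_8219a1_an

/-! ### Elementary facts on positive functionals -/

theorem lin_zero (C x : ℂ) (h : ∀ t : ℝ, 0 ≤ C + t * x) : x = 0 := by
  have h0 := h 0
  simp only [Complex.ofReal_zero, zero_mul, add_zero] at h0
  have hCim : C.im = 0 := (Complex.nonneg_iff.mp h0).2.symm
  have him : x.im = 0 := by
    have := (Complex.nonneg_iff.mp (h 1)).2
    simpa [hCim] using this.symm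
  have hre : x.re = 0 := by
    by_contra hne
    have := (Complex.nonneg_iff.mp (h (-(C.re + 1) / x.re))).1
    simp only [Complex.add_re, Complex.mul_re, Complex.ofReal_re, Complex.ofReal_im, zero_mul,
      sub_zero] at this
    rw [div_mul_cancel₀ _ hne] at this
    linarith
  exact Complex.ext hre him

theorem cs_zero {A : Type*} [NonUnitalCStarAlgebra A] (ρ : A →L[ℂ] ℂ)
    (hpos : ∀ a : A, 0 ≤ ρ (star a * a)) (a : A) (ha : ρ (star a * a) = 0) (b : A) :
    ρ (star b * a) = 0 ∧ ρ (star a * b) = 0 := by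
  have key : ∀ t : ℂ, 0 ≤ ρ (star b * b) + (t * ρ (star b * a) + star t * ρ (star a * b)) := by
    intro t
    have := hpos (b + t • a)
    simp only [star_add, star_smul, add_mul, mul_add, smul_mul_assoc, mul_smul_comm, map_add,
      map_smul, smul_eq_mul, ha, mul_zero, add_zero] at this
    convert this using 1
    ring
  have h1 : ρ (star b * a) + ρ (star a * b) = 0 := by
    apply lin_zero (ρ (star b * b))
    intro t
    have := key t
    simp only [Complex.star_def, Complex.conj_ofReal] at this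
    convert this using 1
    ring
  have h2 : Complex.I * (ρ (star b * a) - ρ (star a * b)) = 0 := by
    apply lin_zero (ρ (star b * b))
    intro t
    have := key (t * Complex.I)
    simp only [Complex.star_def, map_mul, Complex.conj_ofReal, Complex.conj_I] at this
    convert this using 1
    ring
  have h3 : ρ (star b * a) - ρ (star a * b) = 0 := by
    rcases mul_eq_zero.mp h2 with h | h
    · exact absurd h Complex.I_ne_zero
    · exact h
  constructor
  · linear_combination (h1 + h3) / 2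
  · linear_combination (h1 - h3) / 2

theorem eq_one_of_re {z : ℂ} (hz : ‖z‖ ≤ 1) (hre : 1 ≤ z.re) : z = 1 := by
  have h1 : z.re ≤ 1 := (Complex.re_le_norm z).trans hz
  have h2 : z.re = 1 := le_antisymm h1 hre
  have h3 : z.re ^ 2 + z.im ^ 2 ≤ 1 := by
    have := Complex.sq_norm z
    rw [Complex.normSq_apply] at this
    nlinarith [norm_nonneg z]
  have h4 : z.im = 0 := by
    rw [h2] at h3
    nlinarith [sq_nonneg z.im]
  exact Complex.ext (by simpa using h2) (by simpa using h4)

theorem eq_one_of_convex {z w : ℂ} {a b : ℝ} (hz : ‖z‖ ≤ 1) (hw : ‖w‖ ≤ 1) (ha : 0 < a)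
    (hb : 0 < b) (hab : a + b = 1) (h : a • z + b • w = 1) : z = 1 := by
  apply eq_one_of_re hz
  have h1 := congrArg Complex.re h
  simp only [Complex.add_re, Complex.real_smul, Complex.mul_re, Complex.ofReal_re,
    Complex.ofReal_im, zero_mul, sub_zero, Complex.one_re] at h1
  have h2 : w.re ≤ 1 := (Complex.re_le_norm w).trans hw
  by_contra hlt
  push Not at hlt
  nlinarith

theorem eq_zero_of_convex {z w : ℂ} {a b : ℝ} (hz : 0 ≤ z) (hw : 0 ≤ w) (ha : 0 < a)
    (hb : 0 < b) (h : a • z + b • w = 0) : z = 0 := by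
  have h1 := congrArg Complex.re h
  simp only [Complex.add_re, Complex.real_smul, Complex.mul_re, Complex.ofReal_re,
    Complex.ofReal_im, zero_mul, sub_zero, Complex.zero_re] at h1
  obtain ⟨hz1, hz2⟩ := Complex.nonneg_iff.mp hz
  obtain ⟨hw1, -⟩ := Complex.nonneg_iff.mp hw
  apply Complex.ext
  · simp only [Complex.zero_re]
    by_contra hne
    have : 0 < z.re := lt_of_le_of_ne hz1 (Ne.symm hne)
    nlinarith [mul_pos ha this, mul_nonneg hb.le hw1]
  · simpa using hz2.symm

/-- Compression of a functional by an element. -/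
noncomputable def compress {B : Type*} [NonUnitalCStarAlgebra B] (ρ : B →L[ℂ] ℂ) (w : B) :
    B →L[ℂ] ℂ :=
  ρ.comp (ContinuousLinearMap.mulLeftRight ℂ B (star w) w)

theorem compress_apply {B : Type*} [NonUnitalCStarAlgebra B] (ρ : B →L[ℂ] ℂ) (w y : B) :
    compress ρ w y = ρ (star w * y * w) := by
  simp [compress]

theorem compress_pos {B : Type*} [NonUnitalCStarAlgebra B] (ρ : B →L[ℂ] ℂ) (w : B)
    (hpos : ∀ a : B, 0 ≤ ρ (star a * a)) (a : B) : 0 ≤ compress ρ w (star a * a) := by
  rw [compress_apply]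
  have := hpos (a * w)
  simpa [mul_assoc] using this

theorem compress_norm_le {B : Type*} [NonUnitalCStarAlgebra B] (ρ : B →L[ℂ] ℂ) (w : B)
    (hρ : ‖ρ‖ ≤ 1) (hw : ‖w‖ ≤ 1) : ‖compress ρ w‖ ≤ 1 := by
  refine ContinuousLinearMap.opNorm_le_bound _ zero_le_one fun y => ?_
  rw [compress_apply]
  calc ‖ρ (star w * y * w)‖ ≤ ‖ρ‖ * ‖star w * y * w‖ := ρ.le_opNorm _
    _ ≤ 1 * (‖star w‖ * ‖y‖ * ‖w‖) := by
        gcongr
        exact (norm_mul_le _ _).trans (by gcongr; exact norm_mul_le _ _)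
    _ ≤ 1 * (1 * ‖y‖ * 1) := by
        rw [norm_star]
        gcongr
    _ = 1 * ‖y‖ := by ring

/-- The quasi-state space inside the weak dual. -/
def Q (B : Type*) [NonUnitalCStarAlgebra B] : Set (WeakDual ℂ B) :=
  {ρ | ‖WeakDual.toStrongDual ρ‖ ≤ 1 ∧ ∀ b : B, 0 ≤ ρ (star b * b)}

theorem isCompact_Q (B : Type*) [NonUnitalCStarAlgebra B] : IsCompact (Q B) := by
  have h1 := WeakDual.isCompact_closedBall (𝕜 := ℂ) (E := B) 0 1
  have h2 : IsClosed {ρ : WeakDual ℂ B | ∀ b : B, 0 ≤ ρ (star b * b)} := by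
    simp only [Set.ofPred_forall]
    refine isClosed_iInter fun b => ?_
    exact isClosed_le continuous_const (WeakDual.eval_continuous _)
  convert h1.inter_right h2 using 1
  ext ρ
  simp [Q]

/-! ### Abstract Cuntz families with a faithful vacuum state -/

/-- The product of the isometries along a word. -/
def word {κ A : Type*} [Monoid A] (s : κ → A) (μ : List κ) : A := (μ.map s).prod

@[simp] theorem word_nil {κ A : Type*} [Monoid A] (s : κ → A) : word s [] = 1 := by simp [word]

@[simp] theorem word_cons {κ A : Type*} [Monoid A] (s : κ → A) (i : κ) (μ : List κ) :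
    word s (i :: μ) = s i * word s μ := by simp [word]

theorem word_append {κ A : Type*} [Monoid A] (s : κ → A) (μ ν : List κ) :
    word s (μ ++ ν) = word s μ * word s ν := by simp [word]

/-- Data of a Cuntz family generating `A`, with a vacuum state whose GNS representation is
faithful. -/
structure CuntzData (κ A : Type*) [CStarAlgebra A] where
  s : κ → A
  iso : ∀ i, star (s i) * s i = 1
  orth : ∀ i j, i ≠ j → star (s i) * s j = 0
  ω : A →L[ℂ] ℂ
  ω_pos : ∀ a, 0 ≤ ω (star a * a)
  ω_norm : ‖ω‖ ≤ 1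
  ω_one : ω 1 = 1
  ω_vac : ∀ i, ω (s i * star (s i)) = 0
  dense : Dense (StarAlgebra.adjoin ℂ (Set.range s) : Set A)
  faithful : ∀ x, (∀ a b : A, ω (a * x * b) = 0) → x = 0

namespace CuntzData

variable {κ A : Type*} [CStarAlgebra A] (D : CuntzData κ A)

include D in
theorem nontrivial : Nontrivial A := by
  refine ⟨⟨1, 0, fun h => ?_⟩⟩
  have := D.ω_one
  rw [h, map_zero] at this
  exact zero_ne_one this

theorem norm_le_one_of_iso {w : A} (hw : star w * w = 1) : ‖w‖ ≤ 1 := by
  have h1 := CStarRing.norm_star_mul_self (x := w)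
  rw [hw] at h1
  have h2 : ‖(1 : A)‖ ≤ 1 := by
    have h3 := CStarRing.norm_star_mul_self (x := (1 : A))
    rw [star_one, mul_one] at h3
    nlinarith [norm_nonneg (1 : A)]
  nlinarith [norm_nonneg w]

theorem norm_one_le : ‖(1 : A)‖ ≤ 1 := norm_le_one_of_iso (by simp)

theorem norm_s_le (i : κ) : ‖D.s i‖ ≤ 1 := norm_le_one_of_iso (D.iso i)

/-- The span of the monomials. -/
noncomputable def V : Submodule ℂ A :=
  Submodule.span ℂ {m | ∃ μ ν : List κ, m = word D.s μ * star (word D.s ν)}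

theorem mono_mem (μ ν : List κ) : word D.s μ * star (word D.s ν) ∈ D.V :=
  Submodule.subset_span ⟨μ, ν, rfl⟩

theorem mul_mem_V_of_mono {a : A}
    (h : ∀ μ ν : List κ, a * (word D.s μ * star (word D.s ν)) ∈ D.V) {v : A} (hv : v ∈ D.V) :
    a * v ∈ D.V := by
  induction hv using Submodule.span_induction with
  | mem x hx =>
    obtain ⟨μ, ν, rfl⟩ := hx
    exact h μ ν
  | zero => simp
  | add x y _ _ hx hy => rw [mul_add]; exact add_mem hx hy
  | smul c x _ hx => rw [mul_smul_comm]; exact Submodule.smul_mem _ _ hx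

theorem s_mul_mem (i : κ) {v : A} (hv : v ∈ D.V) : D.s i * v ∈ D.V := by
  refine D.mul_mem_V_of_mono (fun μ ν => ?_) hv
  rw [← mul_assoc, ← word_cons]
  exact D.mono_mem _ _

theorem star_s_mul_mem (i : κ) {v : A} (hv : v ∈ D.V) : star (D.s i) * v ∈ D.V := by
  refine D.mul_mem_V_of_mono (fun μ ν => ?_) hv
  cases μ with
  | nil =>
    have := D.mono_mem [] (ν ++ [i])
    simpa [word_append] using this
  | cons k μ =>
    by_cases hik : i = k
    · subst hik
      rw [word_cons, mul_assoc, ← mul_assoc (star (D.s i)), D.iso, one_mul]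
      exact D.mono_mem _ _
    · rw [word_cons, mul_assoc, ← mul_assoc (star (D.s i)), D.orth i k hik, zero_mul]
      exact zero_mem _

theorem adjoin_subset_V {a : A} (ha : a ∈ StarAlgebra.adjoin ℂ (Set.range D.s)) : a ∈ D.V := by
  have key : ∀ v ∈ D.V, a * v ∈ D.V ∧ star a * v ∈ D.V := by
    induction ha using StarAlgebra.adjoin_induction with
    | mem x hx =>
      obtain ⟨i, rfl⟩ := hx
      exact fun v hv => ⟨D.s_mul_mem i hv, D.star_s_mul_mem i hv⟩
    | algebraMap r =>
      intro v hv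
      rw [Algebra.algebraMap_eq_smul_one, star_smul, star_one, smul_mul_assoc, smul_mul_assoc,
        one_mul]
      exact ⟨Submodule.smul_mem _ _ hv, Submodule.smul_mem _ _ hv⟩
    | add x y _ _ hx hy =>
      intro v hv
      rw [star_add, add_mul, add_mul]
      exact ⟨add_mem (hx v hv).1 (hy v hv).1, add_mem (hx v hv).2 (hy v hv).2⟩
    | mul x y _ _ hx hy =>
      intro v hv
      rw [star_mul, mul_assoc, mul_assoc]
      exact ⟨(hx _ (hy v hv).1).1, (hy _ (hx v hv).2).2⟩
    | star x _ hx =>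
      intro v hv
      rw [star_star]
      exact ⟨(hx v hv).2, (hx v hv).1⟩
  have h1 : (1 : A) ∈ D.V := by simpa using D.mono_mem [] []
  simpa using (key 1 h1).1

theorem dense_V : Dense (D.V : Set A) :=
  D.dense.mono fun _ ha => D.adjoin_subset_V ha

theorem ext_mono {ρ σ : A →L[ℂ] ℂ}
    (h : ∀ μ ν : List κ, ρ (word D.s μ * star (word D.s ν)) = σ (word D.s μ * star (word D.s ν))) :
    ρ = σ := by
  apply ContinuousLinearMap.ext_on (s := {m | ∃ μ ν : List κ, m = word D.s μ * star (word D.s ν)})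
    D.dense_V
  rintro _ ⟨μ, ν, rfl⟩
  exact h μ ν

/-- Two functionals with the same eigenvalue relations agree. -/
theorem ext_eigen {ρ σ : A →L[ℂ] ℂ} (z : κ → ℂ) (h1 : ρ 1 = σ 1)
    (hρl : ∀ i y, ρ (D.s i * y) = z i * ρ y) (hρr : ∀ i y, ρ (y * star (D.s i)) = z i * ρ y)
    (hσl : ∀ i y, σ (D.s i * y) = z i * σ y) (hσr : ∀ i y, σ (y * star (D.s i)) = z i * σ y) :
    ρ = σ := by
  apply D.ext_mono
  intro μ ν
  induction μ with
  | nil =>
    induction ν with
    | nil => simpa using h1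
    | cons k ν ih =>
      simp only [word_nil, one_mul, word_cons, star_mul] at ih ⊢
      rw [hρr, hσr, ih]
  | cons k μ ih =>
    rw [word_cons, mul_assoc, hρl, hσl, ih]

theorem vac_left {ρ : A →L[ℂ] ℂ} (hpos : ∀ a, 0 ≤ ρ (star a * a)) {i : κ}
    (h : ρ (D.s i * star (D.s i)) = 0) (y : A) : ρ (D.s i * y) = 0 := by
  have := (cs_zero ρ hpos (star (D.s i)) (by simpa using h) y).2
  simpa using this

theorem vac_right {ρ : A →L[ℂ] ℂ} (hpos : ∀ a, 0 ≤ ρ (star a * a)) {i : κ}
    (h : ρ (D.s i * star (D.s i)) = 0) (y : A) : ρ (y * star (D.s i)) = 0 := by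
  have := (cs_zero ρ hpos (star (D.s i)) (by simpa using h) (star y)).1
  simpa using this

/-- Uniqueness of the vacuum state. -/
theorem eq_ω {ρ : A →L[ℂ] ℂ} (hpos : ∀ a, 0 ≤ ρ (star a * a)) (h1 : ρ 1 = 1)
    (h : ∀ i, ρ (D.s i * star (D.s i)) = 0) : ρ = D.ω := by
  refine D.ext_eigen (fun _ => 0) (by rw [h1, D.ω_one]) ?_ ?_ ?_ ?_
  · intro i y; rw [D.vac_left hpos (h i), zero_mul]
  · intro i y; rw [D.vac_right hpos (h i), zero_mul]
  · intro i y; rw [D.vac_left D.ω_pos (D.ω_vac i), zero_mul]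
  · intro i y; rw [D.vac_right D.ω_pos (D.ω_vac i), zero_mul]

theorem fix_star {ρ : A →L[ℂ] ℂ} (hpos : ∀ a, 0 ≤ ρ (star a * a)) (h1 : ρ 1 = 1) {k : κ}
    (hk : ρ (D.s k) = 1) : ρ (star (D.s k)) = 1 := by
  have ha := (Complex.nonneg_iff.mp (hpos (1 - D.s k))).2
  have hb := (Complex.nonneg_iff.mp (hpos (1 + Complex.I • D.s k))).2
  simp only [star_sub, star_one, sub_mul, mul_sub, one_mul, mul_one, D.iso, map_sub, h1,
    hk] at ha
  simp only [star_add, star_one, star_smul, add_mul, mul_add, one_mul, mul_one, smul_mul_assoc,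
    mul_smul_comm, D.iso, map_add, map_smul, h1, hk, smul_eq_mul, Complex.star_def,
    Complex.conj_I] at hb
  apply Complex.ext
  · simp at hb
    simp only [Complex.one_re]
    linarith
  · simp at ha
    simpa using ha

open Classical in
theorem fix_rel {ρ : A →L[ℂ] ℂ} (hpos : ∀ a, 0 ≤ ρ (star a * a)) (h1 : ρ 1 = 1) {k : κ}
    (hk : ρ (D.s k) = 1) :
    (∀ i y, ρ (D.s i * y) = (if i = k then 1 else 0) * ρ y) ∧
    (∀ i y, ρ (y * star (D.s i)) = (if i = k then 1 else 0) * ρ y) := by
  have hs := D.fix_star hpos h1 hk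
  have h0 : ρ (star (1 - D.s k) * (1 - D.s k)) = 0 := by
    simp only [star_sub, star_one, sub_mul, mul_sub, one_mul, mul_one, D.iso, map_sub, h1,
      hk, hs]
    ring
  have hl : ∀ y, ρ (star (D.s k) * y) = ρ y := by
    intro y
    have := (cs_zero ρ hpos _ h0 y).2
    simp only [star_sub, star_one, sub_mul, one_mul, map_sub] at this
    linear_combination -this
  have hr : ∀ y, ρ (y * D.s k) = ρ y := by
    intro y
    have := (cs_zero ρ hpos _ h0 (star y)).1
    simp only [star_star, mul_sub, mul_one, map_sub] at this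
    linear_combination -this
  constructor
  · intro i y
    rw [← hl, ← mul_assoc]
    split_ifs with hik
    · subst hik; rw [D.iso, one_mul, one_mul]
    · rw [D.orth k i (Ne.symm hik), zero_mul, zero_mul, map_zero]
  · intro i y
    rw [← hr, mul_assoc]
    split_ifs with hik
    · subst hik; rw [D.iso, mul_one, one_mul]
    · rw [D.orth i k hik, mul_zero, zero_mul, map_zero]

/-- Uniqueness of the state fixed by one of the isometries. -/
theorem eq_of_fix {ρ σ : A →L[ℂ] ℂ} {k : κ} (hpos : ∀ a, 0 ≤ ρ (star a * a)) (h1 : ρ 1 = 1)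
    (hk : ρ (D.s k) = 1) (hpos' : ∀ a, 0 ≤ σ (star a * a)) (h1' : σ 1 = 1)
    (hk' : σ (D.s k) = 1) : ρ = σ := by
  classical
  obtain ⟨a1, a2⟩ := D.fix_rel hpos h1 hk
  obtain ⟨b1, b2⟩ := D.fix_rel hpos' h1' hk'
  exact D.ext_eigen (fun i => if i = k then 1 else 0) (by rw [h1, h1']) a1 a2 b1 b2

theorem eventually_compress {v : A} (hv : v ∈ D.V) :
    ∀ᶠ j in cofinite, star (D.s j) * v * D.s j = D.ω v • (1 : A) := by
  induction hv using Submodule.span_induction with
  | mem x hx =>
    obtain ⟨μ, ν, rfl⟩ := hx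
    cases μ with
    | nil =>
      cases ν with
      | nil =>
        refine Eventually.of_forall fun j => ?_
        simp [D.iso, D.ω_one]
      | cons k ν =>
        filter_upwards [eventually_cofinite_ne k] with j hj
        rw [word_nil, one_mul, word_cons, star_mul, D.vac_right D.ω_pos (D.ω_vac k), zero_smul,
          mul_assoc, mul_assoc, D.orth k j (Ne.symm hj), mul_zero, mul_zero]
    | cons k μ =>
      filter_upwards [eventually_cofinite_ne k] with j hj
      rw [word_cons, mul_assoc (D.s k), D.vac_left D.ω_pos (D.ω_vac k), zero_smul,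
        ← mul_assoc (star (D.s j)), D.orth j k hj, zero_mul, zero_mul]
  | zero => simp
  | add x y _ _ hx hy =>
    filter_upwards [hx, hy] with j h1 h2
    rw [mul_add, add_mul, h1, h2, map_add, add_smul]
  | smul c x _ hx =>
    filter_upwards [hx] with j h1
    rw [mul_smul_comm, smul_mul_assoc, h1, map_smul, smul_eq_mul, mul_smul]

include D in
theorem eq_top_of_ne [Infinite κ] (I : TwoSidedIdeal A) {x : A} (hx : x ∈ I) (hx0 : x ≠ 0) :
    I = ⊤ := by
  have : ∃ a b : A, D.ω (a * x * b) ≠ 0 := by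
    by_contra hcon
    push Not at hcon
    exact hx0 (D.faithful x hcon)
  obtain ⟨a, b, hab⟩ := this
  set y := a * x * b with hy
  have hyI : y ∈ I := I.mul_mem_right _ _ (I.mul_mem_left _ _ hx)
  set c := D.ω y with hc
  have hcpos : 0 < ‖c‖ := norm_pos_iff.mpr hab
  obtain ⟨v, hvV, hv⟩ := D.dense_V.exists_dist_lt y (show 0 < ‖c‖ / 2 by positivity)
  rw [dist_eq_norm] at hv
  obtain ⟨j, hj⟩ := (D.eventually_compress hvV).exists
  have hzI : star (D.s j) * y * D.s j ∈ I := I.mul_mem_right _ _ (I.mul_mem_left _ _ hyI)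
  have hest : ‖c • (1 : A) - star (D.s j) * y * D.s j‖ < ‖c‖ := by
    have e : c • (1 : A) - star (D.s j) * y * D.s j =
        D.ω (y - v) • (1 : A) - star (D.s j) * (y - v) * D.s j := by
      rw [map_sub, sub_smul, mul_sub, sub_mul, hj, ← hc]
      abel
    rw [e]
    have h1 : ‖D.ω (y - v) • (1 : A)‖ ≤ ‖y - v‖ := by
      rw [norm_smul]
      calc ‖D.ω (y - v)‖ * ‖(1 : A)‖ ≤ (‖D.ω‖ * ‖y - v‖) * 1 := by
            gcongr
            · exact D.ω.le_opNorm _
            · exact norm_one_le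
        _ ≤ (1 * ‖y - v‖) * 1 := by gcongr; exact D.ω_norm
        _ = ‖y - v‖ := by ring
    have h2 : ‖star (D.s j) * (y - v) * D.s j‖ ≤ ‖y - v‖ := by
      calc ‖star (D.s j) * (y - v) * D.s j‖ ≤ ‖star (D.s j)‖ * ‖y - v‖ * ‖D.s j‖ :=
            (norm_mul_le _ _).trans (by gcongr; exact norm_mul_le _ _)
        _ ≤ 1 * ‖y - v‖ * 1 := by
            rw [norm_star]
            gcongr <;> exact D.norm_s_le j
        _ = ‖y - v‖ := by ring
    calc _ ≤ _ := norm_sub_le _ _
      _ ≤ ‖y - v‖ + ‖y - v‖ := add_le_add h1 h2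
      _ < ‖c‖ := by linarith
  have hlt : ‖(1 : A) - c⁻¹ • (star (D.s j) * y * D.s j)‖ < 1 := by
    have e : (1 : A) - c⁻¹ • (star (D.s j) * y * D.s j) =
        c⁻¹ • (c • (1 : A) - star (D.s j) * y * D.s j) := by
      rw [smul_sub, smul_smul, inv_mul_cancel₀ hab, one_smul]
    rw [e, norm_smul, norm_inv, inv_mul_lt_iff₀ hcpos, mul_one]
    exact hest
  have hu : IsUnit (c⁻¹ • (star (D.s j) * y * D.s j)) := by
    have := (Units.oneSub _ hlt).isUnit
    simpa using this
  obtain ⟨u, hu⟩ := hu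
  apply TwoSidedIdeal.eq_top
  have hmem : (u : A) ∈ I := by
    rw [hu, Algebra.smul_def]
    exact I.mul_mem_left _ _ hzI
  have := I.mul_mem_left (↑u⁻¹ : A) _ hmem
  simpa using this

include D in
theorem simple [Infinite κ] (I : TwoSidedIdeal A) : I = ⊥ ∨ I = ⊤ := by
  by_cases h : ∃ x ∈ I, x ≠ 0
  · obtain ⟨x, hx, hx0⟩ := h
    exact Or.inr (D.eq_top_of_ne I hx hx0)
  · push Not at h
    left
    ext x
    simp only [TwoSidedIdeal.mem_bot]
    exact ⟨h x, fun e => e ▸ I.zero_mem⟩

end CuntzData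

end Pool.Agent.P.MP_8219a1_an
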