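import Mathlib

set_option autoImplicit false

open scoped ComplexOrder

namespace Pool.Agent.P.MP_8219a1_an

/-- A state on a (not necessarily unital) C*-algebra: a positive linear functional of norm one. -/
def IsState {A : Type*} [NonUnitalCStarAlgebra A] (φ : A →L[ℂ] ℂ) : Prop :=
  (∀ a : A, 0 ≤ φ (star a * a)) ∧ ‖φ‖ = 1

/-- A pure state: an extreme point of the state space. -/
def IsPureState {A : Type*} [NonUnitalCStarAlgebra A] (φ : A →L[ℂ] ℂ) : Prop :=
  φ ∈ Set.extremePoints ℝ {ρ : A →L[ℂ] ℂ | IsState ρ}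

/-- A C*-algebra is simple if its only closed two-sided ideals are `0` and the whole algebra. -/
def IsSimpleCStar (A : Type*) [NonUnitalCStarAlgebra A] : Prop :=
  ∀ I : TwoSidedIdeal A, IsClosed (I : Set A) → I = ⊥ ∨ I = ⊤

/-- `φ'` is the unique state on `B` that extends `φ` along the inclusion `ι : A → B`. -/
def IsUniqueStateExtension {A B : Type*} [NonUnitalCStarAlgebra A] [NonUnitalCStarAlgebra B]
    (ι : A →⋆ₙₐ[ℂ] B) (φ : A →L[ℂ] ℂ) (φ' : B →L[ℂ] ℂ) : Prop :=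
  IsState φ' ∧ (∀ a : A, φ' (ι a) = φ a) ∧
    ∀ ρ : B →L[ℂ] ℂ, IsState ρ → (∀ a : A, ρ (ι a) = φ a) → ρ = φ'

end Pool.Agent.P.MP_8219a1_an
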