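import Pool.Agent.P.MP_8219a1_an.Main

set_option autoImplicit false

open scoped ComplexOrder InnerProductSpace
open Filter Topology

namespace Pool.Agent.P.MP_8219a1_an

variable (κ : Type)

/-- The full Fock space: square summable functions on finite words. -/
abbrev Fock : Type := lp (fun _ : List κ => ℂ) 2

variable {κ}

open Classical in
/-- The basis vector of a word. -/
noncomputable def dl (w : List κ) : Fock κ := lp.single 2 w (1 : ℂ)

open Classical in
theorem inner_dl (v w : List κ) : ⟪dl v, dl w⟫_ℂ = if v = w then 1 else 0 := by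
  unfold dl
  rw [lp.inner_single_left, lp.single_apply, Pi.single_apply]
  split_ifs <;> simp

theorem orthonormal_cons (i : κ) : Orthonormal ℂ (fun w : List κ => dl (i :: w)) := by
  classical
  rw [orthonormal_iff_ite]
  intro v w
  rw [inner_dl]
  simp

/-- The creation operator, as an isometry. -/
noncomputable def crI (i : κ) : Fock κ →ₗᵢ[ℂ] Fock κ :=
  (orthonormal_cons i).orthogonalFamily.linearIsometry

theorem crI_dl (i : κ) (w : List κ) : crI i (dl w) = dl (i :: w) := by
  classical
  unfold crI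
  conv_lhs => arg 2; unfold dl
  rw [OrthogonalFamily.linearIsometry_apply_single]
  simp

/-- The creation operator. -/
noncomputable def cr (i : κ) : Fock κ →L[ℂ] Fock κ := (crI i).toContinuousLinearMap

theorem cr_dl (i : κ) (w : List κ) : cr i (dl w) = dl (i :: w) := crI_dl i w

theorem ext_dl {F : Type*} [NormedAddCommGroup F] [NormedSpace ℂ F] {S T : Fock κ →L[ℂ] F}
    (h : ∀ w, S (dl w) = T (dl w)) : S = T := by
  classical
  refine lp.ext_continuousLinearMap (ENNReal.ofNat_ne_top (n := nat_lit 2)) fun w => ?_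
  ext
  have := h w
  unfold dl at this
  simpa using this

theorem eq_zero_of_inner_dl {x : Fock κ} (h : ∀ v, ⟪dl v, x⟫_ℂ = 0) : x = 0 := by
  classical
  ext v
  have := h v
  unfold dl at this
  rw [lp.inner_single_left] at this
  simpa using this

theorem op_ext_dl {S T : Fock κ →L[ℂ] Fock κ}
    (h : ∀ v w, ⟪dl v, S (dl w)⟫_ℂ = ⟪dl v, T (dl w)⟫_ℂ) : S = T := by
  refine ext_dl fun w => ?_
  rw [← sub_eq_zero]
  refine eq_zero_of_inner_dl fun v => ?_
  rw [inner_sub_right, h, sub_self]

theorem cr_iso (i : κ) : star (cr i) * cr i = 1 := by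
  refine op_ext_dl fun v w => ?_
  rw [ContinuousLinearMap.star_eq_adjoint, mul_apply_eq_comp,
    ContinuousLinearMap.adjoint_inner_right, cr_dl, cr_dl, one_apply_eq_self,
    inner_dl, inner_dl]
  by_cases h : v = w <;> simp [h]

theorem cr_orth (i j : κ) (hij : i ≠ j) : star (cr i) * cr j = 0 := by
  refine op_ext_dl fun v w => ?_
  rw [ContinuousLinearMap.star_eq_adjoint, mul_apply_eq_comp,
    ContinuousLinearMap.adjoint_inner_right, cr_dl, cr_dl, inner_dl]
  simp [hij]

theorem star_cr_nil (i : κ) : star (cr i) (dl []) = 0 := by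
  refine eq_zero_of_inner_dl fun v => ?_
  rw [ContinuousLinearMap.star_eq_adjoint, ContinuousLinearMap.adjoint_inner_right, cr_dl,
    inner_dl]
  simp

theorem word_cr_nil (μ : List κ) : word cr μ (dl []) = dl μ := by
  induction μ with
  | nil => simp
  | cons i μ ih => rw [word_cons, mul_apply_eq_comp, ih, cr_dl]

variable (κ) in
/-- The C*-algebra generated by the creation operators. -/
noncomputable def CuntzAlg : StarSubalgebra ℂ (Fock κ →L[ℂ] Fock κ) :=
  (StarAlgebra.adjoin ℂ (Set.range (cr (κ := κ)))).topologicalClosure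

instance : IsClosed (CuntzAlg κ : Set (Fock κ →L[ℂ] Fock κ)) :=
  StarSubalgebra.isClosed_topologicalClosure _

noncomputable instance : CStarAlgebra (CuntzAlg κ) := StarSubalgebra.cstarAlgebra (CuntzAlg κ)

theorem cr_mem (i : κ) : cr i ∈ CuntzAlg κ :=
  StarSubalgebra.le_topologicalClosure _ (StarAlgebra.subset_adjoin ℂ _ ⟨i, rfl⟩)

/-- The generators. -/
noncomputable def gen (i : κ) : CuntzAlg κ := ⟨cr i, cr_mem i⟩

theorem coe_word (μ : List κ) : ((word gen μ : CuntzAlg κ) : Fock κ →L[ℂ] Fock κ) = word cr μ := by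
  induction μ with
  | nil => simp
  | cons i μ ih => rw [word_cons, word_cons, MulMemClass.coe_mul, ih]; rfl

theorem norm_dl (w : List κ) : ‖dl w‖ = 1 := by
  classical
  unfold dl
  rw [lp.norm_single (by norm_num)]
  simp

/-- The vacuum state. -/
noncomputable def vacuum : CuntzAlg κ →L[ℂ] ℂ :=
  LinearMap.mkContinuous
    { toFun := fun a => ⟪dl [], (a : Fock κ →L[ℂ] Fock κ) (dl [])⟫_ℂ
      map_add' := fun a b => by simp
      map_smul' := fun c a => by simp } 1 fun a => by
    simp only [LinearMap.coe_mk, AddHom.coe_mk, one_mul]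
    calc _ ≤ ‖dl ([] : List κ)‖ * ‖(a : Fock κ →L[ℂ] Fock κ) (dl [])‖ := norm_inner_le_norm _ _
      _ ≤ 1 * (‖(a : Fock κ →L[ℂ] Fock κ)‖ * ‖dl ([] : List κ)‖) := by
          rw [norm_dl]
          gcongr
          simpa [norm_dl] using (a : Fock κ →L[ℂ] Fock κ).le_opNorm (dl [])
      _ = ‖a‖ := by rw [norm_dl, one_mul, mul_one]; rfl

theorem vacuum_apply (a : CuntzAlg κ) :
    vacuum a = ⟪dl [], (a : Fock κ →L[ℂ] Fock κ) (dl [])⟫_ℂ := rfl

theorem vacuum_star_mul (a b : CuntzAlg κ) :
    vacuum (star a * b) =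
      ⟪(a : Fock κ →L[ℂ] Fock κ) (dl []), (b : Fock κ →L[ℂ] Fock κ) (dl [])⟫_ℂ := by
  rw [vacuum_apply, MulMemClass.coe_mul, StarMemClass.coe_star, mul_apply_eq_comp,
    ContinuousLinearMap.star_eq_adjoint, ContinuousLinearMap.adjoint_inner_right]

theorem dense_gen : Dense (StarAlgebra.adjoin ℂ (Set.range (gen (κ := κ))) : Set (CuntzAlg κ)) := by
  rw [Subtype.dense_iff]
  have h1 : StarSubalgebra.map (CuntzAlg κ).subtype
      (StarAlgebra.adjoin ℂ (Set.range (gen (κ := κ)))) =
      StarAlgebra.adjoin ℂ (Set.range (cr (κ := κ))) := by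
    rw [StarAlgHom.map_adjoin, ← Set.range_comp]
    rfl
  have h2 : ((↑) : CuntzAlg κ → (Fock κ →L[ℂ] Fock κ)) ''
      (StarAlgebra.adjoin ℂ (Set.range (gen (κ := κ))) : Set (CuntzAlg κ)) =
      (StarAlgebra.adjoin ℂ (Set.range (cr (κ := κ))) : Set (Fock κ →L[ℂ] Fock κ)) := by
    rw [← h1]
    rfl
  intro x hx
  exact h2 ▸ hx

variable (κ) in
/-- The Cuntz data of the Fock representation. -/
noncomputable def fockData : CuntzData κ (CuntzAlg κ) where
  s := gen
  iso i := Subtype.ext (cr_iso i)
  orth i j hij := Subtype.ext (cr_orth i j hij)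
  ω := vacuum
  ω_pos a := by
    rw [vacuum_star_mul, inner_self_eq_norm_sq_to_K]
    have h : (0 : ℝ) ≤ ‖(a : Fock κ →L[ℂ] Fock κ) (dl [])‖ ^ 2 := sq_nonneg _
    have h2 := Complex.zero_le_real.mpr h
    rw [Complex.ofReal_pow] at h2
    exact h2
  ω_norm := LinearMap.mkContinuous_norm_le _ zero_le_one _
  ω_one := by
    rw [vacuum_apply]
    simp [norm_dl]
  ω_vac i := by
    have := vacuum_star_mul (star (gen i)) (star (gen i))
    rw [star_star] at this
    rw [this]
    change ⟪star (cr i) (dl []), star (cr i) (dl [])⟫_ℂ = 0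
    rw [star_cr_nil, inner_zero_left]
  dense := dense_gen
  faithful x hx := by
    apply Subtype.ext
    refine op_ext_dl fun v w => ?_
    have := hx (star (word gen v)) (word gen w)
    rw [mul_assoc, vacuum_star_mul, MulMemClass.coe_mul, coe_word, coe_word,
      mul_apply_eq_comp, word_cr_nil, word_cr_nil] at this
    rw [this]
    simp

end Pool.Agent.P.MP_8219a1_an
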