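import Pool.Agent.P.MP_8219a1_an.Abstract

set_option autoImplicit false

open scoped ComplexOrder
open Filter Topology

namespace Pool.Agent.P.MP_8219a1_an

theorem norm_apply_le_one {B : Type*} [NonUnitalCStarAlgebra B] {ρ : B →L[ℂ] ℂ} (hρ : ‖ρ‖ ≤ 1)
    {b : B} (hb : ‖b‖ ≤ 1) : ‖ρ b‖ ≤ 1 := by
  calc ‖ρ b‖ ≤ ‖ρ‖ * ‖b‖ := ρ.le_opNorm _
    _ ≤ 1 * 1 := by gcongr
    _ = 1 := by ring

theorem norm_eq_one_of_apply {B : Type*} [NonUnitalCStarAlgebra B] {ρ : B →L[ℂ] ℂ}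
    (hρ : ‖ρ‖ ≤ 1) {b : B} (hb : ‖b‖ ≤ 1) (h : ρ b = 1) : ‖ρ‖ = 1 := by
  refine le_antisymm hρ ?_
  have h1 := ρ.le_opNorm b
  rw [h, norm_one] at h1
  calc (1 : ℝ) ≤ ‖ρ‖ * ‖b‖ := h1
    _ ≤ ‖ρ‖ * 1 := by gcongr
    _ = ‖ρ‖ := mul_one _

namespace CuntzData

variable {κ A : Type*} [CStarAlgebra A] (D : CuntzData κ A)

/-- An isometry `w` with `w^* s_k w = r`. -/
theorem exists_iso (k l : κ) (hkl : l ≠ k) (r : ℝ) (hr0 : 0 ≤ r) (hr1 : r < 1) :
    ∃ w : A, star w * w = 1 ∧ star w * D.s k * w = (r : ℂ) • (1 : A) := by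
  have hn : ‖(r : ℂ) • D.s k‖ < 1 := by
    rw [norm_smul, Complex.norm_real, Real.norm_of_nonneg hr0]
    calc r * ‖D.s k‖ ≤ r * 1 := by gcongr; exact D.norm_s_le k
      _ < 1 := by linarith
  set U := Units.oneSub _ hn with hU
  set u : A := ↑U⁻¹ with hu
  have hu1 : (1 - (r : ℂ) • D.s k) * u = 1 := by
    exact U.mul_inv
  have hu2 : u = 1 + (r : ℂ) • (D.s k * u) := by
    rw [sub_mul, one_mul, smul_mul_assoc] at hu1
    rw [← hu1]; abel
  set x : A := u * D.s l with hx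
  have hx2 : x = D.s l + (r : ℂ) • (D.s k * x) := by
    rw [hx]
    conv_lhs => rw [hu2]
    rw [add_mul, one_mul, smul_mul_assoc, mul_assoc]
  have hkx : star (D.s k) * x = (r : ℂ) • x := by
    conv_lhs => rw [hx2]
    rw [mul_add, D.orth k l (Ne.symm hkl), zero_add, mul_smul_comm, ← mul_assoc, D.iso, one_mul]
  have hlx : star (D.s l) * x = 1 := by
    conv_lhs => rw [hx2]
    rw [mul_add, D.iso, mul_smul_comm, ← mul_assoc, D.orth l k hkl, zero_mul, smul_zero, add_zero]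
  have hxk : star x * D.s k = (r : ℂ) • star x := by
    have := congrArg star hkx
    simpa using this
  have hxx : star x * x = 1 + ((r : ℂ) * r) • (star x * x) := by
    have hsx : star x = star (D.s l) + (r : ℂ) • (star x * star (D.s k)) := by
      have := congrArg star hx2
      simpa using this
    calc star x * x = (star (D.s l) + (r : ℂ) • (star x * star (D.s k))) * x := by rw [← hsx]
      _ = 1 + ((r : ℂ) * r) • (star x * x) := by
        rw [add_mul, hlx, smul_mul_assoc, mul_assoc, hkx, mul_smul_comm, smul_smul]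
  have hxx' : ((1 - r * r : ℝ) : ℂ) • (star x * x) = 1 := by
    push_cast
    rw [sub_smul, one_smul]
    conv_lhs => arg 1; rw [hxx]
    abel
  have hpos : 0 ≤ 1 - r * r := by nlinarith
  set t : ℝ := Real.sqrt (1 - r * r) with ht
  have htt : (t : ℂ) * t = ((1 - r * r : ℝ) : ℂ) := by
    rw [← Complex.ofReal_mul, ht, Real.mul_self_sqrt hpos]
  refine ⟨(t : ℂ) • x, ?_, ?_⟩
  · simp only [star_smul, Complex.star_def, Complex.conj_ofReal, smul_mul_assoc, mul_smul_comm,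
      smul_smul]
    rw [htt, hxx']
  · simp only [star_smul, Complex.star_def, Complex.conj_ofReal, smul_mul_assoc, mul_smul_comm,
      smul_smul]
    rw [htt, hxk, smul_mul_assoc, smul_comm, hxx']

/-- There is a state fixed by `s k`. -/
theorem exists_fix (k l : κ) (hkl : l ≠ k) :
    ∃ χ : A →L[ℂ] ℂ, (∀ a, 0 ≤ χ (star a * a)) ∧ ‖χ‖ ≤ 1 ∧ χ 1 = 1 ∧ χ (D.s k) = 1 := by
  let F : ℕ → Set (WeakDual ℂ A) := fun n =>
    Q A ∩ ({ρ | ρ 1 = 1} ∩ {ρ | 1 - 1 / ((n : ℝ) + 1) ≤ (ρ (D.s k)).re})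
  have hcl : ∀ n, IsClosed (F n) := by
    intro n
    refine (isCompact_Q A).isClosed.inter (IsClosed.inter ?_ ?_)
    · exact isClosed_eq (WeakDual.eval_continuous _) continuous_const
    · exact isClosed_le continuous_const
        (Complex.continuous_re.comp (WeakDual.eval_continuous _))
  have hne : ∀ n, (F n).Nonempty := by
    intro n
    have h0 : 0 ≤ 1 - 1 / ((n : ℝ) + 1) := by
      rw [sub_nonneg, div_le_one (by positivity)]
      linarith [(Nat.cast_nonneg n : (0 : ℝ) ≤ n)]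
    have h1 : 1 - 1 / ((n : ℝ) + 1) < 1 := by
      have : 0 < 1 / ((n : ℝ) + 1) := by positivity
      linarith
    obtain ⟨w, hw1, hw2⟩ := D.exists_iso k l hkl _ h0 h1
    refine ⟨StrongDual.toWeakDual (compress D.ω w), ⟨?_, ?_⟩, ?_, ?_⟩
    · exact compress_norm_le D.ω w D.ω_norm (norm_le_one_of_iso hw1)
    · exact compress_pos D.ω w D.ω_pos
    · change compress D.ω w 1 = 1
      rw [compress_apply, mul_one, hw1, D.ω_one]
    · change _ ≤ (compress D.ω w (D.s k)).re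
      rw [compress_apply, hw2, map_smul, D.ω_one, smul_eq_mul, mul_one, Complex.ofReal_re]
  have hanti : ∀ n, F (n + 1) ⊆ F n := by
    intro n ρ hρ
    refine ⟨hρ.1, hρ.2.1, ?_⟩
    have h2 := hρ.2.2
    simp only [Set.mem_ofPred_eq] at h2 ⊢
    refine le_trans ?_ h2
    have : 1 / (((n + 1 : ℕ) : ℝ) + 1) ≤ 1 / ((n : ℝ) + 1) := by
      apply one_div_le_one_div_of_le (by positivity)
      push_cast; linarith
    linarith
  have hcomp : IsCompact (F 0) := (isCompact_Q A).of_isClosed_subset (hcl 0) Set.inter_subset_left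
  obtain ⟨ρ, hρ⟩ := IsCompact.nonempty_iInter_of_sequence_nonempty_isCompact_isClosed F hanti hne
    hcomp hcl
  rw [Set.mem_iInter] at hρ
  refine ⟨WeakDual.toStrongDual ρ, (hρ 0).1.2, (hρ 0).1.1, (hρ 0).2.1, ?_⟩
  apply eq_one_of_re (norm_apply_le_one (hρ 0).1.1 (D.norm_s_le k))
  by_contra hlt
  push Not at hlt
  obtain ⟨n, hn⟩ := exists_nat_one_div_lt (sub_pos.mpr hlt)
  have := (hρ n).2.2
  simp only [Set.mem_ofPred_eq] at this
  change (ρ (D.s k)).re < 1 at hlt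
  change _ < 1 - (ρ (D.s k)).re at hn
  linarith

theorem isState_ω : IsState D.ω :=
  ⟨D.ω_pos, norm_eq_one_of_apply D.ω_norm norm_one_le D.ω_one⟩

theorem pure_ω : IsPureState D.ω := by
  rw [IsPureState, mem_extremePoints_iff_left]
  refine ⟨D.isState_ω, ?_⟩
  rintro ρ hρ σ hσ ⟨a, b, ha, hb, hab, h⟩
  refine D.eq_ω hρ.1 ?_ fun i => ?_
  · have h1 := congrArg (fun f : A →L[ℂ] ℂ => f 1) h
    simp only [add_apply, smul_apply, D.ω_one] at h1
    exact eq_one_of_convex (norm_apply_le_one hρ.2.le norm_one_le)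
      (norm_apply_le_one hσ.2.le norm_one_le) ha hb hab h1
  · have h1 := congrArg (fun f : A →L[ℂ] ℂ => f (D.s i * star (D.s i))) h
    simp only [add_apply, smul_apply, D.ω_vac] at h1
    refine eq_zero_of_convex ?_ ?_ ha hb h1
    · simpa using hρ.1 (star (D.s i))
    · simpa using hσ.1 (star (D.s i))

theorem pure_fix {χ : A →L[ℂ] ℂ} {k : κ} (hpos : ∀ a, 0 ≤ χ (star a * a)) (hn : ‖χ‖ ≤ 1)
    (h1 : χ 1 = 1) (hk : χ (D.s k) = 1) : IsPureState χ := by
  rw [IsPureState, mem_extremePoints_iff_left]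
  refine ⟨⟨hpos, norm_eq_one_of_apply hn norm_one_le h1⟩, ?_⟩
  rintro ρ hρ σ hσ ⟨a, b, ha, hb, hab, h⟩
  refine D.eq_of_fix (k := k) hρ.1 ?_ ?_ hpos h1 hk
  · have h2 := congrArg (fun f : A →L[ℂ] ℂ => f 1) h
    simp only [add_apply, smul_apply, h1] at h2
    exact eq_one_of_convex (norm_apply_le_one hρ.2.le norm_one_le)
      (norm_apply_le_one hσ.2.le norm_one_le) ha hb hab h2
  · have h2 := congrArg (fun f : A →L[ℂ] ℂ => f (D.s k)) h
    simp only [add_apply, smul_apply, hk] at h2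
    exact eq_one_of_convex (norm_apply_le_one hρ.2.le (D.norm_s_le k))
      (norm_apply_le_one hσ.2.le (D.norm_s_le k)) ha hb hab h2

/-- The main obstruction. -/
theorem no_extension [Uncountable κ] {χ : A →L[ℂ] ℂ} {k : κ} (hpos : ∀ a, 0 ≤ χ (star a * a))
    (h1 : χ 1 = 1) (hk : χ (D.s k) = 1)
    {B : Type*} [NonUnitalCStarAlgebra B] (ι : A →⋆ₙₐ[ℂ] B) (hι : Function.Injective ι)
    (ω' χ' : B →L[ℂ] ℂ) (hω' : IsUniqueStateExtension ι D.ω ω')
    (hχ' : IsUniqueStateExtension ι χ χ') (α : B ≃⋆ₐ[ℂ] B) (hα : ∀ b, ω' b = χ' (α b)) :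
    False := by
  have hιn : ∀ a, ‖ι a‖ = ‖a‖ := NonUnitalStarAlgHom.norm_map ι hι
  have hαn : ∀ b, ‖α.symm b‖ = ‖b‖ := NonUnitalStarAlgHom.norm_map α.symm α.symm.injective
  have hι1 : ‖ι 1‖ ≤ 1 := by rw [hιn]; exact norm_one_le
  have hιs : ∀ i, ‖ι (D.s i)‖ ≤ 1 := fun i => by rw [hιn]; exact D.norm_s_le i
  let ιL : A →L[ℂ] B := LinearMap.mkContinuous (ι : A →ₗ[ℂ] B) 1 fun a => by
    simp [hιn]
  have hιL : ∀ a, ιL a = ι a := fun _ => rfl
  let αL : B →L[ℂ] B := LinearMap.mkContinuous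
    { toFun := α.symm, map_add' := map_add _, map_smul' := map_smul _ } 1 fun a => by
    simp [hαn]
  have hαL : ∀ b, αL b = α.symm b := fun _ => rfl
  have hres : ∀ ρ : B →L[ℂ] ℂ, (∀ b, 0 ≤ ρ (star b * b)) → ∀ a, 0 ≤ (ρ.comp ιL) (star a * a) := by
    intro ρ hρ a
    rw [ContinuousLinearMap.comp_apply, hιL, map_mul, map_star]
    exact hρ _
  set b0 : B := α.symm (ι 1 + ι (D.s k)) with hb0
  -- `ω'` is the only quasi-state with value `2` at `b0`
  have peak : ∀ ρ : B →L[ℂ] ℂ, ‖ρ‖ ≤ 1 → (∀ b, 0 ≤ ρ (star b * b)) → 2 ≤ (ρ b0).re → ρ = ω' := by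
    intro ρ hρn hρp hρ2
    let σ : B →L[ℂ] ℂ := ρ.comp αL
    have hσ : ∀ b, σ b = ρ (α.symm b) := fun _ => rfl
    have hσn : ‖σ‖ ≤ 1 := by
      refine ContinuousLinearMap.opNorm_le_bound _ zero_le_one fun b => ?_
      rw [hσ]
      calc ‖ρ (α.symm b)‖ ≤ ‖ρ‖ * ‖α.symm b‖ := ρ.le_opNorm _
        _ ≤ 1 * ‖b‖ := by rw [hαn]; gcongr
    have hσp : ∀ b, 0 ≤ σ (star b * b) := by
      intro b
      rw [hσ, map_mul, map_star]
      exact hρp _
    have e1 := norm_apply_le_one hσn hι1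
    have e2 := norm_apply_le_one hσn (hιs k)
    have e3 : 2 ≤ (σ (ι 1)).re + (σ (ι (D.s k))).re := by
      rw [← Complex.add_re, ← map_add, hσ]
      exact hρ2
    have r1 := (Complex.re_le_norm _).trans e1
    have r2 := (Complex.re_le_norm _).trans e2
    have f1 : σ (ι 1) = 1 := eq_one_of_re e1 (by linarith)
    have f2 : σ (ι (D.s k)) = 1 := eq_one_of_re e2 (by linarith)
    have g : σ.comp ιL = χ := D.eq_of_fix (k := k) (hres σ hσp) f1 f2 hpos h1 hk
    have g2 : σ = χ' := hχ'.2.2 σ ⟨hσp, norm_eq_one_of_apply hσn hι1 f1⟩ fun a => by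
      rw [← g]; rfl
    ext b
    rw [hα, ← g2, hσ, StarAlgEquiv.symm_apply_apply]
  have hω'b0 : (ω' b0).re = 2 := by
    rw [hα, hb0, StarAlgEquiv.apply_symm_apply, map_add, hχ'.2.1, hχ'.2.1, h1, hk]
    norm_num
  -- `ω'` is the only quasi-state that is one at the unit of `A` and kills all range projections
  have vac : ∀ ρ : B →L[ℂ] ℂ, ‖ρ‖ ≤ 1 → (∀ b, 0 ≤ ρ (star b * b)) → ρ (ι 1) = 1 →
      (∀ i, ρ (ι (D.s i * star (D.s i))) = 0) → ρ = ω' := by
    intro ρ hρn hρp hρ1 hρi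
    have g : ρ.comp ιL = D.ω := D.eq_ω (hres ρ hρp) hρ1 hρi
    exact hω'.2.2 ρ ⟨hρp, norm_eq_one_of_apply hρn hι1 hρ1⟩ fun a => by
      rw [← g]; rfl
  let C : ℕ → Set (WeakDual ℂ B) := fun m =>
    Q B ∩ ({ρ | ρ (ι 1) = 1} ∩ {ρ | (ρ b0).re ≤ 2 - 1 / ((m : ℝ) + 1)})
  let Z : κ → Set (WeakDual ℂ B) := fun i => {ρ | ρ (ι (D.s i * star (D.s i))) = 0}
  have hC : ∀ m, IsCompact (C m) := by
    intro m
    refine (isCompact_Q B).inter_right (IsClosed.inter ?_ ?_)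
    · exact isClosed_eq (WeakDual.eval_continuous _) continuous_const
    · exact isClosed_le (Complex.continuous_re.comp (WeakDual.eval_continuous _)) continuous_const
  have hZ : ∀ i, IsClosed (Z i) := fun i =>
    isClosed_eq (WeakDual.eval_continuous _) continuous_const
  have hfin : ∀ m, ∃ F : Finset κ, C m ∩ ⋂ i ∈ F, Z i = ∅ := by
    intro m
    refine (hC m).elim_finite_subfamily_closed Z hZ ?_
    rw [Set.eq_empty_iff_forall_notMem]
    rintro ρ ⟨⟨hq, hρ1, hρ2⟩, hρZ⟩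
    rw [Set.mem_iInter] at hρZ
    have := vac (WeakDual.toStrongDual ρ) hq.1 hq.2 hρ1 hρZ
    have h3 : (ρ b0).re = 2 := by rw [← hω'b0, ← this]; rfl
    simp only [Set.mem_ofPred_eq] at hρ2
    have : 0 < 1 / ((m : ℝ) + 1) := by positivity
    linarith
  choose F hF using hfin
  have hcount : (⋃ m, (F m : Set κ)).Countable :=
    Set.countable_iUnion fun m => (F m).countable_toSet
  obtain ⟨j, hj⟩ : ∃ j, j ∉ ⋃ m, (F m : Set κ) := by
    by_contra hcon
    push Not at hcon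
    have : (⋃ m, (F m : Set κ)) = Set.univ := Set.eq_univ_of_forall hcon
    rw [this] at hcount
    exact Set.not_countable_univ hcount
  let τ : B →L[ℂ] ℂ := compress ω' (ι (D.s j))
  have hτa : ∀ a, τ (ι a) = D.ω (star (D.s j) * a * D.s j) := by
    intro a
    rw [← hω'.2.1, map_mul ι, map_mul ι, map_star ι]
    exact compress_apply _ _ _
  have hτn : ‖τ‖ ≤ 1 := compress_norm_le _ _ hω'.1.2.le (hιs j)
  have hτp : ∀ b, 0 ≤ τ (star b * b) := compress_pos _ _ hω'.1.1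
  have hτ1 : τ (ι 1) = 1 := by rw [hτa, mul_one, D.iso, D.ω_one]
  have hτ2 : 2 ≤ (τ b0).re := by
    by_contra hlt
    push Not at hlt
    obtain ⟨m, hm⟩ := exists_nat_one_div_lt (sub_pos.mpr hlt)
    have hmem : StrongDual.toWeakDual τ ∈ C m ∩ ⋂ i ∈ F m, Z i := by
      refine ⟨⟨⟨hτn, hτp⟩, hτ1, ?_⟩, ?_⟩
      · change (τ b0).re ≤ _
        linarith
      · simp only [Set.mem_iInter]
        intro i hi
        have hij : j ≠ i := by
          rintro rfl
          exact hj (Set.mem_iUnion.mpr ⟨m, hi⟩)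
        change τ _ = 0
        rw [hτa, ← mul_assoc, D.orth j i hij, zero_mul, zero_mul, map_zero]
    rw [hF m] at hmem
    exact hmem
  have hfinal := peak τ hτn hτp hτ2
  have e1 : τ (ι (D.s j * star (D.s j))) = 1 := by
    rw [hτa, ← mul_assoc, D.iso, one_mul, D.iso, D.ω_one]
  rw [hfinal, hω'.2.1, D.ω_vac] at e1
  exact zero_ne_one e1

end CuntzData

end Pool.Agent.P.MP_8219a1_an
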